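import Pool.Agent.Helper91.GP.QSTAR
import Pool.Agent.Helper91.GP.QOME

/-!
# Project EN: `e = e e^* u` in the group algebra
-/

namespace Pool.Agent.Helper63.EN

open Pool.Agent.Helper96.SP Pool.Agent.Helper91.GP

/-- The coefficient of `x^* y` at the identity. -/
noncomputable def ip {n : ℕ} (x y : QS n) : ℚ := (adj x * y).coeff 1

lemma ip_self {n : ℕ} (x : QS n) (h : ip x x = 0) : x = 0 := by
  unfold ip at h
  rw [OME.coeff_adj_mul, Finset.sum_eq_zero_iff_of_nonneg fun g _ => by
    rw [mul_one]; exact mul_self_nonneg _] at h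
  apply MonoidAlgebra.coeff_injective
  ext g
  have h1 := h g (Finset.mem_univ g)
  rw [mul_one] at h1
  rw [mul_self_eq_zero.1 h1]
  rfl

lemma ip_mul {n : ℕ} (e x y : QS n) : ip (e * x) y = ip x (adj e * y) := by
  unfold ip
  rw [adj_mul, mul_assoc]

/-- Package GA. -/
theorem ga {n : ℕ} (e : QS n) : ∃ u : QS n, e = e * adj e * u := by
  have hfin : FiniteDimensional ℚ (QS n) := inferInstance
  let V : Submodule ℚ (QS n) := LinearMap.range (LinearMap.mulLeft ℚ e)
  have hV : ∀ v ∈ V, LinearMap.mulLeft ℚ (e * adj e) v ∈ V := fun v _ =>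
    ⟨adj e * v, by
      rw [LinearMap.mulLeft_apply, LinearMap.mulLeft_apply, mul_assoc]⟩
  let N : V →ₗ[ℚ] V := (LinearMap.mulLeft ℚ (e * adj e)).restrict hV
  have hN : Function.Injective N := by
    rw [← LinearMap.ker_eq_bot, LinearMap.ker_eq_bot']
    rintro ⟨v, x, hx⟩ h
    rw [LinearMap.mulLeft_apply] at hx
    have h1 : e * adj e * v = 0 := congrArg Subtype.val h
    have h2 : adj e * v = 0 := by
      apply ip_self
      have h3 : ip (adj e * v) (adj e * v) = ip v (adj (adj e) * (adj e * v)) := ip_mul _ _ _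
      rw [h3, adj_adj, ← mul_assoc, h1]
      unfold ip
      rw [mul_zero]
      rfl
    have h4 : v = 0 := by
      apply ip_self
      have h5 : ip v v = ip (e * x) v := by rw [hx]
      rw [h5, ip_mul, h2]
      unfold ip
      rw [mul_zero]
      rfl
    exact Subtype.ext h4
  have hS : Function.Surjective N := LinearMap.injective_iff_surjective.1 hN
  obtain ⟨v, hv⟩ := hS ⟨e, 1, by rw [LinearMap.mulLeft_apply, mul_one]⟩
  exact ⟨v.1, (congrArg Subtype.val hv).symm⟩

end Pool.Agent.Helper63.EN
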